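import Pool.Agent.Work.MP_223b32_t3_helper79.MAINR

/-!
# Hyperelliptic curves over a fixed finite field are independent of all varieties

`F` is ANY finite field of odd characteristic with `q` elements, `n = 2 g + 1` a prime, `f` a monic
irreducible polynomial of degree `n` over `F`, `C` the hyperelliptic curve `y ^ 2 = f(x)` of genus
`g`. For all but a tiny proportion of the `r`-tuples of such `f` the following holds for EVERY smooth
projective variety `Y` over `F` whose Frobenius eigenvalues in degrees at most `A` are, up to roots of
unity and powers of `√q`, Weil numbers of degree at most `B` (no other condition on `Y`), and for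
every product `X` of powers of the Jacobians of the `r` curves, over all finite extensions of `F`: in
the Künneth components `H^a(Y) ⊗ H^b(X)` of `H^(a + b)(Y × X)`, `a ≤ A`, `b ≤ 2 J`, the Tate classes
are the sums of products of Tate classes of `Y` and of products of divisors of `X`, and the orders of
the poles of the `L`-functions multiply. So the analytic Tate conjecture for `Y` implies the one for
`Y × X` in these degrees. The field is fixed, the genus grows: the proportion of the exceptions is
at most `40 J q ^ ((A + 2) (B + 1) ^ 2) (n r) ^ (2 J) 2 ^ (- m / (8 J))`, `m` the order of `2` modulo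
`n`, and `m > y` for all but at most `y ^ 2` primes `n`.

Idea of the proof.

* Let `a` be a root of `f` in `K = F_(q^n)`, `χ` the quadratic character of `K`. The numerator of
  the zeta function of `C` is `∑ b_m T ^ m` (up to the sign of `T`) with
  `b_m = ∑ χ(h(a))`, `h` monic of degree `m`. By the formula of Moore and Carlitz for the product
  of all the `h(a)`, `b_m = q ^ m + 2 (δ_1 + ⋯ + δ_m)` modulo `4`, `(-1) ^ δ_k = χ(a ^ (q ^ k) - a)`.
* So modulo `2` the Frobenius eigenvalues are the nontrivial `n`-th roots of unity `ζ`, and modulo
  `4` they are known: `α ^ n = 1 + 2 Z(ζ)`, `Z(ζ)` linear in the bits `δ_k`.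
* A relation between an eigenvalue `γ` of `Y` and the `α` has the form
  `γ ^ (2 n) (1 + 4 U) ^ (2 ^ v) = ω q ^ (n a) (1 + 4 W) ^ (2 ^ v)` with a root of unity `ω`, where
  `U` modulo `2` is a sum of numbers `Z(ζ) + Z(ζ) ^ 2` and `W` modulo `2` is known. Comparing two
  solutions with the same `γ` and `v` (possibly for different `f`), the root of unity disappears,
  since a root of unity which is `1` modulo `4` is `1`: so `U` modulo `2` depends only on `γ` and `v`.
  There are few `γ` and `v`, so one gets few linear relations for the bits.
* The linear relation with at most `2 J` terms is a system of at least `m / (4 J)` independent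
  linear conditions for the bits (a gap argument for linearised polynomials).
* The first `g - t` bits are equidistributed by a Weil bound for quadratic character sums, linear in
  the degree, over any finite field (Stepanov's method with Hasse derivatives).
-/

namespace Pool.Agent.Results.MP_223b32_ag.HyperellipticTimesAny

open Pool.Agent.Work.T3 Pool.Agent.Work.TC Polynomial

theorem result :
    (∀ (F : Type) [Field F] [Fintype F], ringChar F ≠ 2 →
      ∀ n : ℕ, n.Prime → n ≠ 2 → ∀ r A B J : ℕ, 1 ≤ r → 1 ≤ B → 1 ≤ J →
        ((Pool.Agent.Work.T3.exceptional F n r A B J).ncard : ℝ) ≤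
          40 * J * (Fintype.card F : ℝ) ^ ((A + 2) * (B + 1) ^ 2) * ((n : ℝ) * r) ^ (2 * J) *
            2 ^ (-(orderOf (2 : ZMod n) : ℝ) / (8 * J)) * ((irr F n).ncard : ℝ) ^ r) ∧
    ∀ y : ℕ, {n : ℕ | n.Prime ∧ n ≠ 2 ∧ orderOf (2 : ZMod n) ≤ y}.Finite ∧
      {n : ℕ | n.Prime ∧ n ≠ 2 ∧ orderOf (2 : ZMod n) ≤ y}.ncard ≤ y ^ 2 :=
  ⟨fun F _ _ hF n hn hn2 r A B J hr hB hJ => all_boundR F hF n hn hn2 r A B J hr hB hJ, stmt_ORD⟩

end Pool.Agent.Results.MP_223b32_ag.HyperellipticTimesAny
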